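import Pool.Agent.MP_fcd29e_an.H81.Spec2

/-! Row H2: the three weights. -/

set_option autoImplicit false

open MeasureTheory Complex Set Filter Topology Metric
open scoped ContDiff ComplexConjugate

namespace Pool.Agent.MP_fcd29e_an.H1

open Pool.Agent.MP_fcd29e_an.H81

noncomputable section

/-- The function that blows up at `c`. -/
def ta (a c s : ℝ) : ℝ := (a * (c - s))⁻¹

variable {a c s : ℝ}

theorem ta_pos (ha : 0 < a) (hs : s < c) : 0 < ta a c s :=
  inv_pos.2 (mul_pos ha (sub_pos.2 hs))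

theorem ta_cd (ha : 0 < a) (hs : s < c) : ContDiffAt ℝ ∞ (ta a c) s :=
  (contDiffAt_const.mul (contDiffAt_const.sub contDiffAt_id)).inv
    (mul_pos ha (sub_pos.2 hs)).ne'

theorem ta_der (ha : 0 < a) (hs : s < c) : HasDerivAt (ta a c) (a * ta a c s ^ 2) s := by
  have h1 : HasDerivAt (fun s => a * (c - s)) (-a) s := by
    simpa using ((hasDerivAt_id s).const_sub c).const_mul a
  have h2 := h1.inv (mul_pos ha (sub_pos.2 hs)).ne'
  have e : a * ta a c s ^ 2 = - -a / (a * (c - s)) ^ 2 := by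
    rw [ta, neg_neg, inv_pow, div_eq_mul_inv]
  rw [e]
  exact h2

theorem h_der (ha : 0 < a) (hs : s < c) :
    HasDerivAt (fun s => ta a c s ^ 3) (3 * a * ta a c s ^ 4) s := by
  refine ((ta_der ha hs).fun_pow 3).congr_deriv ?_
  push_cast
  ring

theorem h_der2 (ha : 0 < a) (hs : s < c) : 0 ≤ deriv (deriv fun s => ta a c s ^ 3) s := by
  have h1 : (deriv fun s => ta a c s ^ 3) =ᶠ[𝓝 s] fun s => 3 * a * ta a c s ^ 4 := by
    filter_upwards [Iio_mem_nhds hs] with y hy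
    exact (h_der ha hy).deriv
  rw [h1.deriv_eq, (((ta_der ha hs).fun_pow 4).const_mul (3 * a)).deriv]
  have := ta_pos ha hs
  positivity

theorem b_der (ha : 0 < a) (hs : s < c) : HasDerivAt (fun s => Real.log (1 + ta a c s ^ 2))
    (2 * a * ta a c s ^ 3 / (1 + ta a c s ^ 2)) s := by
  have := (((ta_der ha hs).fun_pow 2).const_add 1).log (by positivity)
  convert this using 2
  push_cast
  ring

theorem h2 (_ : Lv0) (hq : StmtQA) (hl : StmtLOG) : StmtH2 := by
  classical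
  intro N D p ψ m c hN h
  obtain ⟨G, hG⟩ := h.grad
  obtain ⟨δ, hδ, hp⟩ := h.psh
  obtain ⟨m₀, hm₀, m₁, hm⟩ := h.mb
  obtain ⟨-, cs, cv, ⟨C, hC⟩, -⟩ := hl
  set a : ℝ := |m₁| / (6 * δ) + 8 * G ^ 2 / δ + 1 with ha_def
  have ha1 : 1 ≤ a := by
    have : 0 ≤ |m₁| / (6 * δ) + 8 * G ^ 2 / δ := by positivity
    linarith
  have ha : 0 < a := by linarith
  have hkey : |m₁| / 2 + 24 * a ^ 2 * G ^ 2 ≤ a ^ 2 * (3 * a * δ) := by
    have e : 3 * a * δ = |m₁| / 2 + 24 * G ^ 2 + 3 * δ := by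
      rw [ha_def]; field_simp; ring
    have h1 : 1 ≤ a ^ 2 := one_le_pow₀ ha1
    have h2 := abs_nonneg m₁
    rw [e]
    nlinarith
  have pc : ∀ z ∈ D, ContDiffAt ℝ ∞ p z := fun z hz => h.ps.contDiffAt (h.opn.mem_nhds hz)
  have pd : ∀ z ∈ D, DifferentiableAt ℝ p z := fun z hz => (pc z hz).differentiableAt (by simp)
  have tc : ∀ z ∈ D, ContDiffAt ℝ ∞ (fun y => ta a c (p y)) z := fun z hz =>
    (ta_cd ha (h.lt z hz)).comp z (pc z hz)
  have pg : ∀ z ∈ D, ∑ j, ‖dz j (cx p) z‖ ^ 2 ≤ G ^ 2 := fun z hz =>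
    ((hq N z).2.2.2.1 p (pd z hz)).trans (pow_le_pow_left₀ (norm_nonneg _) (hG z hz) 2)
  have eb : ∀ z, Real.exp (Real.log (1 + ta a c (p z) ^ 2)) = 1 + ta a c (p z) ^ 2 := fun z =>
    Real.exp_log (by positivity)
  let χ : ℕ → E N → ℝ := fun ν z => if z ∈ D then 1 - cut (ta a c (p z) / (ν + 1)) else 0
  have χev : ∀ ν, ∀ z ∈ D, χ ν =ᶠ[𝓝 z] fun y => 1 - cut (ta a c (p y) / (ν + 1)) := by
    intro ν z hz
    filter_upwards [h.opn.mem_nhds hz] with y hy
    exact if_pos hy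
  refine ⟨fun z => ψ z + a ^ 2 * ta a c (p z) ^ 3, fun z => Real.log (1 + ta a c (p z) ^ 2), χ,
    4 * C ^ 2 * a ^ 2 * G ^ 2, ?_, ?_, ?_, ?_, ?_, ?_, ?_, ?_, ?_, ?_⟩
  · exact h.ψs.add fun z hz => (contDiffAt_const.mul ((tc z hz).pow 3)).contDiffWithinAt
  · exact fun z hz => ((contDiffAt_const.add ((tc z hz).pow 2)).log
      (by positivity)).contDiffWithinAt
  · exact fun z _ => Real.log_nonneg (by nlinarith [sq_nonneg (ta a c (p z))])
  · intro z hz x hx
    have hs := h.lt z hz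
    have hτ := ta_pos ha hs
    set τ := ta a c (p z) with hτd
    have c1 : ContDiffAt ℝ ∞ ψ z := h.ψs.contDiffAt (h.opn.mem_nhds hz)
    have c2 : ContDiffAt ℝ ∞ (fun y => ta a c (p y) ^ 3) z := (tc z hz).pow 3
    have q1 := (((hq N z).1 ψ c1).2.1 _ c2 1 (a ^ 2)).1 x
    simp only [one_mul] at q1
    have q2 := ((hq N z).1 _ c2).1 (3 * a * τ ^ 4 * δ) (fun L => by
      have := ((hq N z).1 p (pc z hz)).2.2 (fun s => ta a c s ^ 3) ((ta_cd ha hs).pow 3) L
      rw [this, (h_der ha hs).deriv]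
      have h1 := mul_le_mul_of_nonneg_left (hp z hz L) (show 0 ≤ 3 * a * τ ^ 4 by positivity)
      have h2 := mul_nonneg (h_der2 ha hs) (sq_nonneg ‖∑ j, dz j (cx p) z * L j‖)
      rw [mul_assoc (3 * a * τ ^ 4)]
      linarith) x hx
    have q3 := h.Q z hz x hx
    have q4 : ∑ j, ‖dz j (cx fun z => Real.log (1 + ta a c (p z) ^ 2)) z‖ ^ 2 ≤
        4 * a ^ 2 * τ ^ 4 * G ^ 2 := by
      have e : ∀ j, ‖dz j (cx fun z => Real.log (1 + ta a c (p z) ^ 2)) z‖ ^ 2 =
          (2 * a * τ ^ 3 / (1 + τ ^ 2)) ^ 2 * ‖dz j (cx p) z‖ ^ 2 := by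
        intro j
        rw [dz_comp_real j (χ := fun s => Real.log (1 + ta a c s ^ 2)) (pd z hz) (b_der ha hs),
          norm_mul, mul_pow, Complex.norm_real, Real.norm_eq_abs, sq_abs]
      simp only [e, ← Finset.mul_sum]
      have h1 : 2 * a * τ ^ 3 / (1 + τ ^ 2) ≤ 2 * a * τ ^ 2 := by
        rw [div_le_iff₀ (by positivity)]
        have : τ ≤ 1 + τ ^ 2 := by nlinarith [sq_nonneg (τ - 1)]
        have h2 := mul_le_mul_of_nonneg_left this (show 0 ≤ 2 * a * τ ^ 2 by positivity)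
        linarith
      have h2 := pow_le_pow_left₀ (by positivity) h1 2
      calc _ ≤ (2 * a * τ ^ 2) ^ 2 * G ^ 2 :=
            mul_le_mul h2 (pg z hz) (Finset.sum_nonneg fun _ _ => by positivity) (by positivity)
        _ = _ := by ring
    rw [q1, eb]
    set X := ∑ j, ∑ k, ‖x j k‖ ^ 2 with hX
    have X0 : 0 ≤ X := Finset.sum_nonneg fun _ _ => Finset.sum_nonneg fun _ _ => by positivity
    have hN' : (1 : ℝ) ≤ (N : ℝ) - 2 := by
      have : (3 : ℝ) ≤ N := by exact_mod_cast hN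
      linarith
    have q5 : 3 * a * τ ^ 4 * δ * X ≤ QQ (fun y => ta a c (p y) ^ 3) z x := by
      refine le_trans ?_ q2
      exact mul_le_mul_of_nonneg_right (le_mul_of_one_le_right (by positivity) hN') X0
    have q6 : m z / 2 * (1 + τ ^ 2) + 6 * (4 * a ^ 2 * τ ^ 4 * G ^ 2) ≤
        m z + a ^ 2 * (3 * a * τ ^ 4 * δ) := by
      have h1 : 0 ≤ m z := hm₀.le.trans (hm z hz).1
      have h2 : m z ≤ |m₁| := (hm z hz).2.trans (le_abs_self _)
      have h3 : τ ^ 2 - 1 ≤ τ ^ 4 := by nlinarith [sq_nonneg (τ ^ 2 - 1)]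
      have h4 := mul_le_mul_of_nonneg_left h3 h1
      have h5 := mul_le_mul_of_nonneg_right h2 (show 0 ≤ τ ^ 4 by positivity)
      have h6 := mul_le_mul_of_nonneg_right hkey (show 0 ≤ τ ^ 4 by positivity)
      nlinarith
    have q7 := mul_le_mul_of_nonneg_left q5 (sq_nonneg a)
    calc _ ≤ (m z + a ^ 2 * (3 * a * τ ^ 4 * δ)) * X :=
          mul_le_mul_of_nonneg_right (by linarith) X0
      _ ≤ _ := by nlinarith
  · intro z hz hz1
    have hτ := ta_pos ha (h.lt z hz)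
    have h1 : a * ta a c (p z) ≤ 1 := by
      rw [ta, mul_inv, ← mul_assoc, mul_inv_cancel₀ ha.ne', one_mul]
      exact inv_le_one_of_one_le₀ (by linarith)
    have h2 : ta a c (p z) ≤ 1 := by nlinarith
    have h3 : a ^ 2 * ta a c (p z) ^ 3 ≤ 1 := by
      have : (a * ta a c (p z)) ^ 2 ≤ 1 := pow_le_one₀ (by positivity) h1
      calc a ^ 2 * ta a c (p z) ^ 3 = (a * ta a c (p z)) ^ 2 * ta a c (p z) := by ring
        _ ≤ 1 := mul_le_one₀ this hτ.le h2
    have h4 : 0 ≤ Real.log (1 + ta a c (p z) ^ 2) :=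
      Real.log_nonneg (by nlinarith [sq_nonneg (ta a c (p z))])
    linarith
  · intro z hz
    have hτ := ta_pos ha (h.lt z hz)
    set τ := ta a c (p z) with hτd
    have e : Real.log (1 + τ ^ 2) - (ψ z + a ^ 2 * τ ^ 3) =
        Real.log (1 + τ ^ 2) + -(a ^ 2 * τ ^ 3) + -ψ z := by ring
    show Real.exp (Real.log (1 + τ ^ 2) - (ψ z + a ^ 2 * τ ^ 3)) ≤ _
    rw [e, Real.exp_add, Real.exp_add, Real.exp_log (by positivity)]
    refine mul_le_mul_of_nonneg_right ?_ (Real.exp_pos _).le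
    rw [Real.exp_neg, ← div_eq_mul_inv, div_le_iff₀ (Real.exp_pos _)]
    have h1 := Real.add_one_le_exp (a ^ 2 * τ ^ 3)
    have h2 : τ ^ 3 ≤ a ^ 2 * τ ^ 3 := le_mul_of_one_le_left (by positivity) (one_le_pow₀ ha1)
    have h3 : τ ^ 2 ≤ 1 + τ ^ 3 := by
      rcases le_total τ 1 with h4 | h4
      · have := pow_le_one₀ (n := 2) hτ.le h4
        have := pow_pos hτ 3
        linarith
      · have := pow_le_pow_right₀ h4 (show 2 ≤ 3 by norm_num)
        linarith
    have := pow_pos hτ 3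
    linarith
  · intro ν
    have hν : (0 : ℝ) < ν + 1 := by positivity
    have hK := h.cpt (c - (2 * a * (ν + 1))⁻¹) (by
      have : 0 < (2 * a * (ν + 1))⁻¹ := by positivity
      linarith)
    have h0 : ∀ z, z ∉ {z | z ∈ D ∧ p z ≤ c - (2 * a * (ν + 1))⁻¹} → cx (χ ν) z = 0 := by
      intro z hz
      by_cases hD : z ∈ D
      · have h1 : c - p z < (2 * a * (ν + 1))⁻¹ := by
          have := not_le.1 fun e => hz ⟨hD, e⟩
          linarith
        have h2 : 2 ≤ ta a c (p z) / (ν + 1) := by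
          have h3 := sub_pos.2 (h.lt z hD)
          rw [le_div_iff₀ hν, ta, le_inv_comm₀ (by positivity) (by positivity)]
          calc a * (c - p z) ≤ a * (2 * a * (ν + 1))⁻¹ := mul_le_mul_of_nonneg_left h1.le ha.le
            _ = (2 * ((ν : ℝ) + 1))⁻¹ := by field_simp
        simp [cx, χ, hD, (cv _).2.2.2.1 h2]
      · simp [cx, χ, hD]
    have h1 : tsupport (cx (χ ν)) ⊆ {z | z ∈ D ∧ p z ≤ c - (2 * a * (ν + 1))⁻¹} :=
      closure_minimal (fun z hz => by_contra fun e => hz (h0 z e)) hK.isClosed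
    refine ⟨contDiff_iff_contDiffAt.2 fun z => ?_, hK.of_isClosed_subset (isClosed_tsupport _) h1,
      fun z hz => (h1 hz).1⟩
    by_cases hD : z ∈ D
    · exact contDiffAt_cx ((contDiffAt_const.sub
        (cs.contDiffAt.comp z ((tc z hD).div_const _))).congr_of_eventuallyEq (χev ν z hD))
    · refine (contDiffAt_const (c := (0 : ℂ))).congr_of_eventuallyEq ?_
      filter_upwards [hK.isClosed.isOpen_compl.mem_nhds fun e => hD e.1] with y hy
      exact h0 y hy
  · intro ν z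
    by_cases hD : z ∈ D
    · simp only [χ, hD, if_true]
      have := cv (ta a c (p z) / (ν + 1))
      constructor <;> linarith [this.1, this.2.1]
    · simp [χ, hD]
  · intro ν j z hz
    have hν : (0 : ℝ) < ν + 1 := by positivity
    have hs := h.lt z hz
    have hτ := ta_pos ha hs
    have d1 : HasDerivAt (fun s => 1 - cut (ta a c s / (ν + 1)))
        (-(deriv cut (ta a c (p z) / (ν + 1)) * (a * ta a c (p z) ^ 2 / (ν + 1)))) (p z) :=
      ((cs.differentiable (by simp) _).hasDerivAt.comp (p z)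
        ((ta_der ha hs).div_const _)).const_sub 1
    have e1 : cx (χ ν) =ᶠ[𝓝 z] cx fun y => 1 - cut (ta a c (p y) / (ν + 1)) :=
      (χev ν z hz).mono fun y hy => congrArg ofReal hy
    rw [dz_congr e1, dz_comp_real j (χ := fun s => 1 - cut (ta a c s / (ν + 1))) (pd z hz) d1,
      norm_mul, mul_pow, Complex.norm_real, Real.norm_eq_abs, sq_abs, eb]
    set τ := ta a c (p z) with hτd
    have g1 : ‖dz j (cx p) z‖ ^ 2 ≤ G ^ 2 :=
      (Finset.single_le_sum (f := fun j => ‖dz j (cx p) z‖ ^ 2) (fun _ _ => by positivity)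
        (Finset.mem_univ j)).trans (pg z hz)
    have g2 : (-(deriv cut (τ / (ν + 1)) * (a * τ ^ 2 / (ν + 1)))) ^ 2 ≤
        4 * C ^ 2 * a ^ 2 * (1 + τ ^ 2) := by
      by_cases h2 : 2 < τ / (ν + 1)
      · rw [(cv _).2.2.2.2 (Or.inr h2)]
        simp only [zero_mul, neg_zero, ne_eq, OfNat.ofNat_ne_zero, not_false_eq_true, zero_pow]
        positivity
      · have h3 : deriv cut (τ / (ν + 1)) ^ 2 ≤ C ^ 2 := by
          rw [← sq_abs]
          exact pow_le_pow_left₀ (abs_nonneg _) (hC _) 2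
        have h4 : (τ / (ν + 1)) ^ 2 ≤ 2 ^ 2 := pow_le_pow_left₀ (by positivity) (not_lt.1 h2) 2
        calc _ = deriv cut (τ / (ν + 1)) ^ 2 * (τ / (ν + 1)) ^ 2 * (a ^ 2 * τ ^ 2) := by ring
          _ ≤ C ^ 2 * 2 ^ 2 * (a ^ 2 * (1 + τ ^ 2)) :=
            mul_le_mul (mul_le_mul h3 h4 (by positivity) (by positivity))
              (mul_le_mul_of_nonneg_left (by linarith) (by positivity)) (by positivity)
              (by positivity)
          _ = _ := by ring
    calc _ ≤ 4 * C ^ 2 * a ^ 2 * (1 + τ ^ 2) * G ^ 2 :=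
          mul_le_mul g2 g1 (by positivity) (by positivity)
      _ = _ := by ring
  · intro z hz
    obtain ⟨n, hn⟩ := exists_nat_gt (ta a c (p z))
    filter_upwards [eventually_ge_atTop n] with ν hν
    have h1 : ∀ᶠ y in 𝓝 z, ta a c (p y) < n :=
      (tc z hz).continuousAt.eventually_lt continuousAt_const hn
    filter_upwards [h1, χev ν z hz] with y h2 h3
    have h4 : ta a c (p y) / (ν + 1) ≤ 1 := by
      rw [div_le_one (by positivity)]
      have : (n : ℝ) ≤ ν := by exact_mod_cast hν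
      linarith
    rw [h3, (cv _).2.2.1 h4, sub_zero]

end

end Pool.Agent.MP_fcd29e_an.H1
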