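import Pool.Agent.MP_fcd29e_an.H1.PFa

/-! Row PF: smooth homogeneous functions and the projector. -/

set_option autoImplicit false
set_option maxHeartbeats 400000

open MeasureTheory Complex Set Filter Topology Metric
open scoped ContDiff ComplexConjugate

namespace Pool.Agent.MP_fcd29e_an.H1

open Pool.Agent.MP_fcd29e_an.H81

noncomputable section

variable {N : ℕ}

theorem hom_cx {φ : E N → ℝ} (h : ∀ c : ℂ, c ≠ 0 → ∀ z, φ (c • z) = φ z) :
    Hom (E0 N) 0 0 (cx φ) := by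
  intro c hc z _
  simp [cx, h c hc z]

theorem an_eq (ρ : E N → ℝ) (z : E N) :
    ∑ j, dz j (cx ρ) z * conj (dz j (cx ρ) z) = (an ρ z : ℝ) := by
  unfold an
  push_cast
  refine Finset.sum_congr rfl fun j _ => ?_
  rw [Complex.mul_conj, Complex.normSq_eq_norm_sq]
  norm_cast

theorem an_nonneg (ρ : E N → ℝ) (z : E N) : 0 ≤ an ρ z :=
  Finset.sum_nonneg fun _ _ => by positivity

theorem PP_eq (ρ : E N → ℝ) (z : E N) (j k : Fin N) :
    PP ρ z j k = Q (fun j => z j) (fun j => dz j (cx ρ) z) (‖z‖ ^ 2) (an ρ z) j k := rfl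

theorem hh_scale {φ : E N → ℝ} (h : ∀ c : ℂ, c ≠ 0 → ∀ z, φ (c • z) = φ z) {c : ℂ} (hc : c ≠ 0)
    {z : E N} (hz : z ≠ 0) (j k : Fin N) :
    dz j (dzb k (cx φ)) (c • z) = (((‖c‖ ^ 2)⁻¹ : ℝ) : ℂ) * dz j (dzb k (cx φ)) z := by
  have := hom_dz isOpen_E0 (hom_dzb isOpen_E0 (hom_cx h) k) j c hc z hz
  rw [this]
  congr 1
  have e : ((‖c‖ : ℂ)) ^ 2 = c * conj c := by
    rw [Complex.mul_conj, Complex.normSq_eq_norm_sq]; norm_cast
  push_cast
  rw [e]
  simp [mul_comm]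

section
variable {ρ : E N → ℝ} (hρ : Dom ρ) {z : E N}
include hρ

theorem dom_cd (hz : z ≠ 0) : ContDiffAt ℝ ∞ ρ z :=
  hρ.smooth.contDiffAt (isOpen_E0.mem_nhds hz)

theorem dom_za (hz : z ≠ 0) : ∑ j, z j * dz j (cx ρ) z = 0 := by
  have := (euler (hom_cx hρ.inv) (z := z) hz
    (ContDiffAt.da (contDiffAt_cx (dom_cd hρ hz)))).1
  simpa using this

theorem dom_zH (hz : z ≠ 0) (k : Fin N) : ∑ j, z j * dz j (dzb k (cx ρ)) z = 0 := by
  have := (euler (hom_dzb isOpen_E0 (hom_cx hρ.inv) k) (z := z) hz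
    (ContDiffAt.da (contDiffAt_dzb k (contDiffAt_cx (dom_cd hρ hz))))).1
  simpa using this

theorem dom_Hz (hz : z ≠ 0) (j : Fin N) : ∑ k, conj (z k) * dz j (dzb k (cx ρ)) z = 0 := by
  have := (euler (hom_dz isOpen_E0 (hom_cx hρ.inv) j) (z := z) hz
    (ContDiffAt.da (contDiffAt_dz j (contDiffAt_cx (dom_cd hρ hz))))).2
  simp only [dz_dzb_comm j _ (contDiffAt_cx (dom_cd hρ hz))]
  simpa using this

theorem dom_a_scale (hz : z ≠ 0) {c : ℂ} (hc : c ≠ 0) (j : Fin N) :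
    dz j (cx ρ) (c • z) = c⁻¹ * dz j (cx ρ) z := by
  have := hom_dz isOpen_E0 (hom_cx hρ.inv) j c hc z hz
  simpa using this

theorem dom_an_scale (hz : z ≠ 0) {c : ℂ} (hc : c ≠ 0) :
    an ρ (c • z) = (‖c‖ ^ 2)⁻¹ * an ρ z := by
  simp only [an, dom_a_scale hρ hz hc, norm_mul, norm_inv, mul_pow, inv_pow, Finset.mul_sum]

theorem dom_PP_scale (hz : z ≠ 0) {c : ℂ} (hc : c ≠ 0) (j k : Fin N) :
    PP ρ (c • z) j k = PP ρ z j k := by
  have e : ((‖c‖ : ℂ)) ^ 2 = c * conj c := by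
    rw [Complex.mul_conj, Complex.normSq_eq_norm_sq]; norm_cast
  have hc' : conj c ≠ 0 := by simpa using hc
  unfold PP
  rw [dom_an_scale hρ hz hc, dom_a_scale hρ hz hc, dom_a_scale hρ hz hc, norm_smul]
  simp only [PiLp.smul_apply, smul_eq_mul, map_mul, map_inv₀, mul_pow]
  push_cast
  rw [e]
  congr 1
  · congr 1
    rw [show c * z j * (conj c * conj (z k)) = (c * conj c) * (z j * conj (z k)) by ring,
      mul_div_mul_left _ _ (mul_ne_zero hc hc')]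
  · rw [show (conj c)⁻¹ * conj (dz j (cx ρ) z) * (c⁻¹ * dz k (cx ρ) z) =
      (c * conj c)⁻¹ * (conj (dz j (cx ρ) z) * dz k (cx ρ) z) by rw [mul_inv]; ring,
      mul_div_mul_left _ _ (inv_ne_zero (mul_ne_zero hc hc'))]

theorem dom_reg_iff (hz : z ≠ 0) : z ∈ Reg ρ ↔ an ρ z ≠ 0 := by
  have hd : DifferentiableAt ℝ ρ z := (dom_cd hρ hz).differentiableAt (by simp)
  constructor
  · rintro ⟨_, h⟩ h0
    apply h
    have h1 : ∀ j, dz j (cx ρ) z = 0 := by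
      intro j
      have := (Finset.sum_eq_zero_iff_of_nonneg (s := Finset.univ)
        (f := fun j => ‖dz j (cx ρ) z‖ ^ 2) fun _ _ => by positivity).1 h0 j (Finset.mem_univ j)
      simpa using this
    ext v
    rw [fderiv_real hd]
    simp [av, h1]
  · intro h
    refine ⟨hz, fun h0 => h ?_⟩
    have h1 : ∀ j, dz j (cx ρ) z = 0 := by
      intro j
      simp [dz, fderiv_cx hd, h0]
    simp [an, h1]

theorem dom_QD (hz : z ∈ Reg ρ) :
    QD (fun j => z j) (fun j => dz j (cx ρ) z) (‖z‖ ^ 2) (an ρ z) :=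
  ⟨pow_ne_zero 2 (norm_ne_zero_iff.2 hz.1), (dom_reg_iff hρ hz.1).1 hz, (norm_sq_eq z).symm,
    an_eq ρ z, dom_za hρ hz.1⟩

theorem dom_reg_open : IsOpen (Reg ρ) := by
  have h := hρ.smooth.continuousOn_fderiv_of_isOpen isOpen_E0 (by simp)
  exact h.isOpen_inter_preimage isOpen_E0 (isOpen_compl_singleton (x := 0))

theorem dom_reg_cone : Cone (Reg ρ) := by
  refine ⟨fun h => h.1 rfl, fun c hc z hz => ?_⟩
  rw [dom_reg_iff hρ (smul_ne_zero hc hz.1), dom_an_scale hρ hz.1 hc]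
  exact mul_ne_zero (inv_ne_zero (pow_ne_zero 2 (norm_ne_zero_iff.2 hc)))
    ((dom_reg_iff hρ hz.1).1 hz)

theorem dom_cd_a (hz : z ≠ 0) (j : Fin N) : ContDiffAt ℝ ∞ (dz j (cx ρ)) z :=
  contDiffAt_dz j (contDiffAt_cx (dom_cd hρ hz))

theorem dom_cd_an (hz : z ≠ 0) : ContDiffAt ℝ ∞ (an ρ) z :=
  ContDiffAt.sum fun j _ => (dom_cd_a hρ hz j).norm_sq ℂ

theorem dom_cd_nv (hz : z ≠ 0) : ContDiffAt ℝ ∞ (nv ρ) z := by
  rw [contDiffAt_piLp]
  intro j
  exact contDiffAt_conj (dom_cd_a hρ hz j)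

theorem dom_cd_ian (hz : z ∈ Reg ρ) : ContDiffAt ℝ ∞ (fun y => ((an ρ y : ℝ) : ℂ)⁻¹) z :=
  (contDiffAt_cx (dom_cd_an hρ hz.1)).inv (dom_QD hρ hz).tc

theorem dom_cd_PP (hz : z ∈ Reg ρ) (j k : Fin N) : ContDiffAt ℝ ∞ (fun y => PP ρ y j k) z := by
  have h1 : ContDiffAt ℝ ∞ (fun y : E N => ((‖y‖ ^ 2 : ℝ) : ℂ)⁻¹) z :=
    (contDiffAt_cx (r := fun y : E N => ‖y‖ ^ 2) (contDiffAt_id.norm_sq ℂ)).inv (dom_QD hρ hz).sc
  simp only [PP, div_eq_mul_inv]
  exact (contDiffAt_const.sub (((contDiff_coord j).contDiffAt.mul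
    (contDiffAt_conj (contDiff_coord k).contDiffAt)).mul h1)).sub
    (((contDiffAt_conj (dom_cd_a hρ hz.1 j)).mul (dom_cd_a hρ hz.1 k)).mul (dom_cd_ian hρ hz))

end

theorem ev_da {φ : E N → ℝ} {z : E N} (h : ContDiffAt ℝ ∞ φ z) :
    ∀ᶠ y in 𝓝 z, DifferentiableAt ℝ φ y :=
  ((h.of_le (m := 1) (by simp)).eventually (by simp)).mono fun _ hy =>
    hy.differentiableAt (by simp)

theorem da_cx {φ : E N → ℝ} {z : E N} (h : DifferentiableAt ℝ φ z) :
    DifferentiableAt ℝ (cx φ) z := ofRealCLM.differentiableAt.comp z h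

theorem hh_lin {φ ψ : E N → ℝ} {z : E N} (hφ : ContDiffAt ℝ ∞ φ z) (hψ : ContDiffAt ℝ ∞ ψ z)
    (s t : ℝ) (j k : Fin N) : dz j (dzb k (cx fun y => s * φ y + t * ψ y)) z =
      s * dz j (dzb k (cx φ)) z + t * dz j (dzb k (cx ψ)) z := by
  have e : (cx fun y => s * φ y + t * ψ y) = fun y => (s : ℂ) * cx φ y + (t : ℂ) * cx ψ y := by
    funext y; simp [cx]
  have h1 : dzb k (cx fun y => s * φ y + t * ψ y) =ᶠ[𝓝 z]
      fun y => (s : ℂ) * dzb k (cx φ) y + (t : ℂ) * dzb k (cx ψ) y := by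
    filter_upwards [ev_da hφ, ev_da hψ] with y h1 h2
    rw [e, dzb_add k ((da_cx h1).const_mul _) ((da_cx h2).const_mul _),
      dzb_const_mul k _ (da_cx h1), dzb_const_mul k _ (da_cx h2)]
  have d1 := ContDiffAt.da (contDiffAt_dzb k (contDiffAt_cx hφ))
  have d2 := ContDiffAt.da (contDiffAt_dzb k (contDiffAt_cx hψ))
  rw [dz_congr h1, dz_add j (d1.const_mul _) (d2.const_mul _), dz_const_mul j _ d1,
    dz_const_mul j _ d2]

theorem hh_comp {φ : E N → ℝ} {z : E N} (hφ : ContDiffAt ℝ ∞ φ z) {χ : ℝ → ℝ}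
    (hχ : ContDiffAt ℝ ∞ χ (φ z)) (j k : Fin N) : dz j (dzb k (cx fun y => χ (φ y))) z =
      (deriv χ (φ z) : ℝ) * dz j (dzb k (cx φ)) z +
        (deriv (deriv χ) (φ z) : ℝ) * (dz j (cx φ) z * conj (dz k (cx φ) z)) := by
  have hd : DifferentiableAt ℝ φ z := hφ.differentiableAt (by simp)
  have h0 : ∀ᶠ x in 𝓝 (φ z), DifferentiableAt ℝ χ x :=
    ((hχ.of_le (m := 1) (by simp)).eventually (by simp)).mono fun _ hy =>
      hy.differentiableAt (by simp)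
  have h1 : dzb k (cx fun y => χ (φ y)) =ᶠ[𝓝 z]
      fun y => cx (fun w => deriv χ (φ w)) y * dzb k (cx φ) y := by
    filter_upwards [ev_da hφ, hφ.continuousAt.eventually h0] with y h1 h2
    exact dzb_comp_real k h1 h2.hasDerivAt
  have h2 : DifferentiableAt ℝ (deriv χ) (φ z) := by
    have h3 : ContDiffAt ℝ 1 (fderiv ℝ χ) (φ z) := hχ.fderiv_right (by
      rw [one_add_one_eq_two]; exact WithTop.coe_le_coe.2 (le_top : (2 : ℕ∞) ≤ ⊤))
    have h4 : ContDiffAt ℝ 1 (fun x => fderiv ℝ χ x 1) (φ z) := h3.clm_apply contDiffAt_const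
    exact h4.differentiableAt (by simp)
  have h5 : DifferentiableAt ℝ (fun w => deriv χ (φ w)) z := h2.comp z hd
  rw [dz_congr h1, dz_mul j (da_cx h5)
    (ContDiffAt.da (contDiffAt_dzb k (contDiffAt_cx hφ))), dz_comp_real j hd h2.hasDerivAt, dzb_cx]
  simp only [cx]
  ring

theorem pf : StmtPF := by
  intro N
  refine ⟨fun U a b g hU _ hg => ⟨fun j => ⟨hom_dz hU hg j, hom_dzb hU hg j⟩,
    fun z hz hd => euler hg hz hd⟩, fun r z v hr => fderiv_real hr v,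
    fun φ z h => ⟨hess_conj h, fun L => ?_⟩, fun ρ hρ => ⟨dom_reg_open hρ, dom_reg_cone hρ,
      fun z hz => ⟨dom_za hρ hz, dom_zH hρ hz, dom_Hz hρ hz,
        fun c hc => ⟨dom_a_scale hρ hz hc, dom_an_scale hρ hz hc, dom_PP_scale hρ hz hc⟩,
        an_eq ρ z, ?_⟩, fun z hz => ?_, fun z hz φ hφ => ?_, fun φ hφ c hc z hz => ?_,
      fun z hz h0 => ?_⟩⟩
  · exact Complex.conj_eq_iff_im.1 (Bf_conj (hess_conj h) L L)
  · rw [EuclideanSpace.norm_sq_eq]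
    simp [nv, an]
  · have q := dom_QD hρ hz
    refine ⟨lt_of_le_of_ne (an_nonneg ρ z) q.t0.symm, dom_cd_an hρ hz.1,
      dom_cd_nv hρ hz.1, fun j => ?_, fun c j => dom_cd_PP hρ hz j c, fun j k => ?_, fun k => ?_, ?_⟩
    · have := (contDiffAt_conj (dom_cd_a hρ hz.1 j)).mul (dom_cd_ian hρ hz)
      exact this
    · simp only [PP_eq]
      exact ⟨Q_conj j k, q.norm_le j k, q.QQ j k⟩
    · simp only [PP_eq]
      exact ⟨q.aQ k, q.zQ k, q.Qz k, q.Qa k⟩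
    · simp only [PP_eq]
      exact q.trace
  · have q := dom_QD hρ hz
    refine ⟨tr_real (hess_conj hφ), ?_, ?_, fun ψ hψ s t => ?_, fun χ hχ => ?_⟩
    · rw [← re_sum]
      exact congrArg re (q.tr_eq fun j k => dz j (dzb k (cx φ)) z).symm
    · exact reCLM.contDiff.contDiffAt.comp z (ContDiffAt.sum fun j _ => ContDiffAt.sum fun k _ =>
        (contDiffAt_dz j (contDiffAt_dzb k (contDiffAt_cx hφ))).mul (dom_cd_PP hρ hz j k))
    · simp only [trH, hh_lin hφ hψ, add_mul, Finset.sum_add_distrib, mul_assoc,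
        ← Finset.mul_sum, add_re, re_ofReal_mul]
    · have h1 := q.rank_one fun j => dz j (cx φ) z
      simp only [← PP_eq] at h1
      simp only [trH, hh_comp hφ hχ, add_mul, Finset.sum_add_distrib, mul_assoc (_ : ℂ) (_ * _),
        mul_assoc ((deriv χ (φ z) : ℝ) : ℂ), ← Finset.mul_sum, add_re, re_ofReal_mul, h1,
        ofReal_re]
      rfl
  · simp only [trH, hh_scale hφ.2 hc hz.1, dom_PP_scale hρ hz.1 hc, mul_assoc, ← Finset.mul_sum,
      re_ofReal_mul]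
  · have hr : z ∈ Reg ρ := ⟨hz, hρ.reg z hz h0⟩
    have q := dom_QD hρ hr
    have e : trH ρ ρ z = ∑ c, (Bf (fun j k => dz j (dzb k (cx ρ)) z) (fun j => PP ρ z j c)
        fun j => PP ρ z j c).re := by
      rw [← re_sum]
      exact congrArg re (q.tr_eq fun j k => dz j (dzb k (cx ρ)) z).symm
    refine ⟨hr, ?_, fun ht w hw => ?_⟩
    · rw [e]
      exact Finset.sum_nonneg fun c _ => hρ.levi z hz h0 _ (q.aQ c)
    · exact q.null (hess_conj (dom_cd hρ hz)) (hρ.levi z hz h0) (dom_Hz hρ hz) (e.symm.trans ht)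
        (fun j => w j) hw

end

end Pool.Agent.MP_fcd29e_an.H1
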