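import Pool.Agent.MP_fcd29e_an.H81.Spec

/-! Linear algebra of the projector, and homogeneous functions. -/

set_option autoImplicit false

open MeasureTheory Complex Set Filter Topology Metric
open scoped ContDiff ComplexConjugate

namespace Pool.Agent.MP_fcd29e_an.H1

open Pool.Agent.MP_fcd29e_an.H81

noncomputable section

variable {N : ℕ}

section Alg

/-- The projector onto the orthogonal complement of `z` and `conj a`. -/
def Q (z a : Fin N → ℂ) (s t : ℝ) (j k : Fin N) : ℂ :=
  (if j = k then 1 else 0) - z j * conj (z k) / s - conj (a j) * a k / t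

/-- The data of the projector. -/
structure QD (z a : Fin N → ℂ) (s t : ℝ) : Prop where
  s0 : s ≠ 0
  t0 : t ≠ 0
  hs : ∑ j, z j * conj (z j) = s
  ht : ∑ j, a j * conj (a j) = t
  za : ∑ j, z j * a j = 0

variable {z a : Fin N → ℂ} {s t : ℝ}

theorem Q_conj (j k : Fin N) : conj (Q z a s t j k) = Q z a s t k j := by
  unfold Q
  by_cases h : j = k
  · subst h; simp [mul_comm]
  · simp [h, Ne.symm h, mul_comm]

theorem Q_left (v : Fin N → ℂ) (k : Fin N) : ∑ j, v j * Q z a s t j k =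
    v k - (∑ j, v j * z j) * conj (z k) / s - (∑ j, v j * conj (a j)) * a k / t := by
  simp only [Q, mul_sub, Finset.sum_sub_distrib, mul_ite, mul_one, mul_zero,
    Finset.sum_ite_eq', Finset.mem_univ, if_true, Finset.sum_mul, Finset.sum_div]
  congr 1
  · congr 1
    exact Finset.sum_congr rfl fun j _ => by ring
  · exact Finset.sum_congr rfl fun j _ => by ring

theorem Q_right (v : Fin N → ℂ) (k : Fin N) : ∑ j, Q z a s t k j * v j =
    v k - z k * (∑ j, conj (z j) * v j) / s - conj (a k) * (∑ j, a j * v j) / t := by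
  simp only [Q, sub_mul, Finset.sum_sub_distrib, ite_mul, one_mul, zero_mul,
    Finset.sum_ite_eq, Finset.mem_univ, if_true, Finset.mul_sum, Finset.sum_div]
  congr 1
  · congr 1
    exact Finset.sum_congr rfl fun j _ => by ring
  · exact Finset.sum_congr rfl fun j _ => by ring

theorem QD.sc (h : QD z a s t) : (s : ℂ) ≠ 0 := by exact_mod_cast h.s0
theorem QD.tc (h : QD z a s t) : (t : ℂ) ≠ 0 := by exact_mod_cast h.t0

theorem QD.za' (h : QD z a s t) : ∑ j, conj (z j) * conj (a j) = 0 := by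
  have := congrArg conj h.za
  simpa [map_sum] using this

theorem QD.aQ (h : QD z a s t) (k : Fin N) : ∑ j, a j * Q z a s t j k = 0 := by
  have h1 : ∑ j, a j * z j = 0 := by simpa [mul_comm] using h.za
  rw [Q_left, h1, h.ht]
  field_simp [h.tc]
  ring

theorem QD.zQ (h : QD z a s t) (k : Fin N) : ∑ j, conj (z j) * Q z a s t j k = 0 := by
  have h1 : ∑ j, conj (z j) * z j = s := by simpa [mul_comm] using h.hs
  rw [Q_left, h1, h.za']
  field_simp [h.sc]
  ring

theorem QD.Qz (h : QD z a s t) (k : Fin N) : ∑ j, Q z a s t k j * z j = 0 := by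
  have h1 : ∑ j, conj (z j) * z j = s := by simpa [mul_comm] using h.hs
  have h2 : ∑ j, a j * z j = 0 := by simpa [mul_comm] using h.za
  rw [Q_right, h1, h2]
  field_simp [h.sc]
  ring

theorem QD.Qa (h : QD z a s t) (k : Fin N) : ∑ j, Q z a s t k j * conj (a j) = 0 := by
  rw [Q_right, h.za', h.ht]
  field_simp [h.tc]
  ring

theorem QD.QQ (h : QD z a s t) (j k : Fin N) :
    ∑ c, Q z a s t j c * conj (Q z a s t k c) = Q z a s t j k := by
  simp only [Q_conj]
  rw [Q_left, h.Qz, h.Qa]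
  simp

theorem QD.norm_le (h : QD z a s t) (j k : Fin N) : ‖Q z a s t j k‖ ≤ 1 := by
  have h1 : ∑ c, ‖Q z a s t j c‖ ^ 2 = (Q z a s t j j).re := by
    rw [← h.QQ j j, re_sum]
    refine Finset.sum_congr rfl fun c _ => ?_
    rw [Complex.mul_conj, Complex.normSq_eq_norm_sq]
    norm_cast
  have h2 : ∀ c, ‖Q z a s t j c‖ ^ 2 ≤ ‖Q z a s t j j‖ := fun c =>
    (Finset.single_le_sum (f := fun c => ‖Q z a s t j c‖ ^ 2) (fun _ _ => by positivity)
      (Finset.mem_univ c)).trans (h1.le.trans (re_le_norm _))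
  have h3 : ‖Q z a s t j j‖ ≤ 1 := by
    have := h2 j
    nlinarith [norm_nonneg (Q z a s t j j)]
  have := h2 k
  nlinarith [norm_nonneg (Q z a s t j k)]

theorem QD.trace (h : QD z a s t) : ∑ j, Q z a s t j j = (N : ℂ) - 2 := by
  have h1 : ∑ j, conj (a j) * a j = t := by simpa [mul_comm] using h.ht
  simp only [Q, if_true, Finset.sum_sub_distrib, ← Finset.sum_div, h.hs, h1, Finset.sum_const,
    Finset.card_univ, Fintype.card_fin, nsmul_eq_mul, mul_one, div_self h.sc, div_self h.tc]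
  ring

/-- The sesquilinear form of a matrix. -/
def Bf (H : Fin N → Fin N → ℂ) (v w : Fin N → ℂ) : ℂ := ∑ j, ∑ k, H j k * v j * conj (w k)

theorem Bf_conj {H : Fin N → Fin N → ℂ} (hH : ∀ j k, conj (H j k) = H k j) (v w : Fin N → ℂ) :
    conj (Bf H v w) = Bf H w v := by
  simp only [Bf, map_sum, map_mul, hH, conj_conj]
  rw [Finset.sum_comm]
  exact Finset.sum_congr rfl fun j _ => Finset.sum_congr rfl fun k _ => by ring

theorem Bf_expand (H : Fin N → Fin N → ℂ) (p v : Fin N → ℂ) (l : ℂ) :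
    Bf H (fun j => p j + l * v j) (fun j => p j + l * v j) =
      Bf H p p + l * Bf H v p + conj l * Bf H p v + l * conj l * Bf H v v := by
  simp only [Bf, Finset.mul_sum, ← Finset.sum_add_distrib, map_add, map_mul]
  exact Finset.sum_congr rfl fun j _ => Finset.sum_congr rfl fun k _ => by ring

theorem QD.tr_eq (h : QD z a s t) (H : Fin N → Fin N → ℂ) :
    ∑ c, Bf H (fun j => Q z a s t j c) (fun j => Q z a s t j c) =
      ∑ j, ∑ k, H j k * Q z a s t j k := by
  simp only [Bf]
  rw [Finset.sum_comm]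
  refine Finset.sum_congr rfl fun j _ => ?_
  rw [Finset.sum_comm]
  refine Finset.sum_congr rfl fun k _ => ?_
  rw [← h.QQ j k, Finset.mul_sum]
  exact Finset.sum_congr rfl fun c _ => by ring

theorem tr_real {H : Fin N → Fin N → ℂ} (hH : ∀ j k, conj (H j k) = H k j) :
    (((∑ j, ∑ k, H j k * Q z a s t j k).re : ℝ) : ℂ) = ∑ j, ∑ k, H j k * Q z a s t j k := by
  rw [← Complex.conj_eq_iff_re]
  simp only [map_sum, map_mul, hH, Q_conj]
  rw [Finset.sum_comm]

theorem QD.rank_one (h : QD z a s t) (p : Fin N → ℂ) :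
    ∑ j, ∑ k, p j * conj (p k) * Q z a s t j k =
      ((∑ c, ‖∑ j, Q z a s t j c * p j‖ ^ 2 : ℝ) : ℂ) := by
  have := h.tr_eq fun j k => p j * conj (p k)
  rw [← this]
  push_cast
  refine Finset.sum_congr rfl fun c _ => ?_
  have e : ((‖∑ j, Q z a s t j c * p j‖ : ℂ)) ^ 2 =
      (∑ j, Q z a s t j c * p j) * conj (∑ j, Q z a s t j c * p j) := by
    rw [Complex.mul_conj, Complex.normSq_eq_norm_sq]; norm_cast
  rw [e, map_sum, Finset.sum_mul_sum]
  simp only [Bf, map_mul]
  exact Finset.sum_congr rfl fun j _ => Finset.sum_congr rfl fun k _ => by ring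

theorem null_pair {H : Fin N → Fin N → ℂ} (hH : ∀ j k, conj (H j k) = H k j)
    (pos : ∀ L : Fin N → ℂ, ∑ j, a j * L j = 0 → 0 ≤ (Bf H L L).re) {p v : Fin N → ℂ}
    (hp : ∑ j, a j * p j = 0) (hv : ∑ j, a j * v j = 0) (h0 : (Bf H p p).re = 0) :
    Bf H v p = 0 := by
  set β := Bf H v p with hβ
  set q := (Bf H v v).re with hq
  have hq0 : 0 ≤ q := pos v hv
  set ε : ℝ := 1 / (q + 1) with hε
  have hε0 : 0 < ε := by positivity
  have hεq : ε * q ≤ 1 := by
    rw [hε, div_mul_eq_mul_div, div_le_one (by positivity)]; linarith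
  have h1 := pos (fun j => p j + (-(ε : ℂ) * conj β) * v j) (by
    simp only [mul_add, Finset.sum_add_distrib, hp, zero_add]
    rw [← mul_zero (-(ε : ℂ) * conj β), ← hv, Finset.mul_sum]
    exact Finset.sum_congr rfl fun j _ => by ring)
  rw [Bf_expand, ← Bf_conj hH v p, ← hβ] at h1
  have e1 : (-(ε : ℂ) * conj β) * β = ((-(ε * normSq β) : ℝ) : ℂ) := by
    push_cast; rw [← Complex.mul_conj]; ring
  have e2 : conj (-(ε : ℂ) * conj β) * conj β = ((-(ε * normSq β) : ℝ) : ℂ) := by
    push_cast; rw [← Complex.mul_conj]; simp; ring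
  have e3 : (-(ε : ℂ) * conj β) * conj (-(ε : ℂ) * conj β) = ((ε ^ 2 * normSq β : ℝ) : ℂ) := by
    push_cast; rw [← Complex.mul_conj]; simp; ring
  rw [e1, e2, e3] at h1
  simp only [add_re, ofReal_re, re_ofReal_mul, h0, ← hq] at h1
  have h2 : 0 ≤ normSq β := normSq_nonneg β
  have h3 : ε * normSq β ≤ 0 := by
    have : ε ^ 2 * normSq β * q ≤ ε * normSq β := by
      have := mul_le_mul_of_nonneg_left hεq (mul_nonneg hε0.le h2)
      nlinarith
    linarith
  have h4 : normSq β = 0 := le_antisymm (by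
    by_contra hc
    exact absurd h3 (not_le.2 (mul_pos hε0 (not_le.1 hc)))) h2
  exact normSq_eq_zero.1 h4

theorem QD.null (h : QD z a s t) {H : Fin N → Fin N → ℂ} (hH : ∀ j k, conj (H j k) = H k j)
    (pos : ∀ L : Fin N → ℂ, ∑ j, a j * L j = 0 → 0 ≤ (Bf H L L).re)
    (hz : ∀ j, ∑ k, conj (z k) * H j k = 0)
    (h0 : ∑ c, (Bf H (fun j => Q z a s t j c) fun j => Q z a s t j c).re = 0)
    (w : Fin N → ℂ) (hw : ∑ j, a j * w j = 0) :
    ∃ β : ℂ, ∀ j, ∑ k, conj (w k) * H j k = β * a j := by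
  have h1 : ∀ c, (Bf H (fun j => Q z a s t j c) fun j => Q z a s t j c).re = 0 := fun c =>
    (Finset.sum_eq_zero_iff_of_nonneg fun c _ => pos _ (h.aQ c)).1 h0 c (Finset.mem_univ c)
  have h2 : ∀ v : Fin N → ℂ, ∑ j, a j * v j = 0 → ∑ j, (∑ k, conj (w k) * H j k) * v j = 0 := by
    intro v hv
    have hc : ∀ c, Bf H v (fun j => Q z a s t j c) = 0 := fun c =>
      null_pair hH pos (h.aQ c) hv (h1 c)
    set μ : ℂ := (∑ j, conj (z j) * w j) / s with hμ
    have hwk : ∀ k, w k = ∑ c, Q z a s t k c * w c + z k * μ := by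
      intro k
      rw [Q_right, hw, hμ]; ring
    have e1 : ∑ j, (∑ k, conj (w k) * H j k) * v j =
        ∑ c, conj (w c) * Bf H v (fun j => Q z a s t j c) +
          conj μ * ∑ j, (∑ k, conj (z k) * H j k) * v j := by
      have e2 : ∑ c, conj (w c) * Bf H v (fun j => Q z a s t j c) =
          ∑ j, (∑ k, conj (∑ c, Q z a s t k c * w c) * H j k) * v j := by
        simp only [Bf, Finset.mul_sum, Finset.sum_mul, map_sum, map_mul]
        rw [Finset.sum_comm]
        refine Finset.sum_congr rfl fun j _ => ?_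
        rw [Finset.sum_comm]
        exact Finset.sum_congr rfl fun k _ => Finset.sum_congr rfl fun c _ => by ring
      rw [e2, Finset.mul_sum, ← Finset.sum_add_distrib]
      refine Finset.sum_congr rfl fun j _ => ?_
      rw [← mul_assoc, ← add_mul, Finset.mul_sum, ← Finset.sum_add_distrib]
      congr 1
      refine Finset.sum_congr rfl fun k _ => ?_
      conv_lhs => rw [hwk k]
      simp only [map_add, map_mul]
      ring
    rw [e1]
    simp [hc, hz]
  refine ⟨(∑ i, (∑ k, conj (w k) * H i k) * conj (a i)) / t, fun j => ?_⟩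
  have h3 := h2 (fun i => (if i = j then 1 else 0) - a j * conj (a i) / t) (by
    simp only [mul_sub, Finset.sum_sub_distrib, mul_ite, mul_one, mul_zero, Finset.sum_ite_eq',
      Finset.mem_univ, if_true]
    have : ∑ i, a i * (a j * conj (a i) / t) = a j * (∑ i, a i * conj (a i)) / t := by
      rw [Finset.mul_sum, Finset.sum_div]
      exact Finset.sum_congr rfl fun i _ => by ring
    rw [this, h.ht]
    field_simp [h.tc]
    ring)
  simp only [mul_sub, Finset.sum_sub_distrib, mul_ite, mul_one, mul_zero, Finset.sum_ite_eq',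
    Finset.mem_univ, if_true] at h3
  rw [sub_eq_zero.1 h3, Finset.sum_div, Finset.sum_mul]
  exact Finset.sum_congr rfl fun i _ => by ring

end Alg

section Homog

theorem fderiv_smul_ee (f : E N → ℂ) (z : E N) (c : ℂ) (j : Fin N) :
    fderiv ℝ f z (c • ee j) = c * dz j f z + conj c * dzb j f z := by
  rw [fderiv_eq, Finset.sum_eq_single j]
  · simp [ee]
  · intro l _ hl; simp [ee, hl]
  · simp

/-- Multiplication by a nonzero complex number. -/
def smE (c : ℂ) (hc : c ≠ 0) : E N ≃L[ℝ] E N :=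
  ContinuousLinearEquiv.equivOfInverse
    ((c • ContinuousLinearMap.id ℂ (E N)).restrictScalars ℝ)
    ((c⁻¹ • ContinuousLinearMap.id ℂ (E N)).restrictScalars ℝ)
    (fun x => by simp [smul_smul, hc]) (fun x => by simp [smul_smul, hc])

theorem smE_apply (c : ℂ) (hc : c ≠ 0) (x : E N) : smE c hc x = c • x := rfl

theorem fderiv_hom {U : Set (E N)} {a b : ℤ} {g : E N → ℂ} (hU : IsOpen U) (hg : Hom U a b g)
    {c : ℂ} (hc : c ≠ 0) {z : E N} (hz : z ∈ U) (v : E N) :
    fderiv ℝ g (c • z) v = c ^ a * conj c ^ b * fderiv ℝ g z (c⁻¹ • v) := by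
  have h1 : g ∘ smE c hc =ᶠ[𝓝 z] (c ^ a * conj c ^ b) • g := by
    filter_upwards [hU.mem_nhds hz] with y hy
    exact hg c hc y hy
  have h2 := h1.fderiv_eq (𝕜 := ℝ)
  rw [ContinuousLinearEquiv.comp_right_fderiv, fderiv_const_smul_field] at h2
  have h3 := congrArg (fun A : E N →L[ℝ] ℂ => A (c⁻¹ • v)) h2
  simp only [ContinuousLinearMap.comp_apply, ContinuousLinearEquiv.coe_coe, smE_apply,
    Pi.smul_apply, ContinuousLinearMap.smul_apply, smul_eq_mul, smul_smul, mul_inv_cancel₀ hc,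
    one_smul] at h3
  exact h3

theorem hom_dz {U : Set (E N)} {a b : ℤ} {g : E N → ℂ} (hU : IsOpen U) (hg : Hom U a b g)
    (j : Fin N) : Hom U (a - 1) b (dz j g) := by
  intro c hc z hz
  rw [dz, fderiv_hom hU hg hc hz, fderiv_hom hU hg hc hz, smul_smul, fderiv_smul_ee,
    fderiv_smul_ee, zpow_sub_one₀ hc]
  simp only [map_mul, conj_I]
  linear_combination (-(c ^ a * conj c ^ b * c⁻¹ * dz j g z) / 2 +
    c ^ a * conj c ^ b * conj c⁻¹ * dzb j g z / 2) * I_mul_I

theorem hom_dzb {U : Set (E N)} {a b : ℤ} {g : E N → ℂ} (hU : IsOpen U) (hg : Hom U a b g)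
    (j : Fin N) : Hom U a (b - 1) (dzb j g) := by
  intro c hc z hz
  have hc' : conj c ≠ 0 := by simpa using hc
  rw [dzb, fderiv_hom hU hg hc hz, fderiv_hom hU hg hc hz, smul_smul, fderiv_smul_ee,
    fderiv_smul_ee, zpow_sub_one₀ hc']
  simp only [map_mul, conj_I, map_inv₀]
  linear_combination ((c ^ a * conj c ^ b * c⁻¹ * dz j g z) / 2 -
    c ^ a * conj c ^ b * (conj c)⁻¹ * dzb j g z / 2) * I_mul_I

theorem euler_dir {U : Set (E N)} {a b : ℤ} {g : E N → ℂ} (hg : Hom U a b g) {z : E N}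
    (hz : z ∈ U) (hd : DifferentiableAt ℝ g z) (u : ℂ) :
    fderiv ℝ g z (u • z) = (a * u + b * conj u) * g z := by
  have h1 : HasDerivAt (fun t : ℝ => z + t • (u • z)) (u • z) 0 := by
    simpa using ((hasDerivAt_id (0 : ℝ)).smul_const (u • z)).const_add z
  have h2 : HasDerivAt (fun t : ℝ => g (z + t • (u • z))) (fderiv ℝ g z (u • z)) 0 := by
    have : HasFDerivAt g (fderiv ℝ g z) (z + (0 : ℝ) • (u • z)) := by
      simpa using hd.hasFDerivAt
    exact this.comp_hasDerivAt (0 : ℝ) h1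
  have h3 : ∀ (v : ℂ) (n : ℤ), HasDerivAt (fun s : ℂ => (1 + s * v) ^ n) (n * v) 0 := by
    intro v n
    have e1 : HasDerivAt (fun s : ℂ => 1 + s * v) v 0 := by
      simpa using ((hasDerivAt_id (0 : ℂ)).mul_const v).const_add 1
    have e2 := hasDerivAt_zpow n (1 + (0 : ℂ) * v) (Or.inl (by simp))
    have e3 := e2.comp (0 : ℂ) e1
    simpa [Function.comp_def] using e3
  have h4 : HasDerivAt (fun s : ℂ => (1 + s * u) ^ a * (1 + s * conj u) ^ b * g z)
      ((a * u + b * conj u) * g z) ((0 : ℝ) : ℂ) := by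
    have := ((h3 u a).mul (h3 (conj u) b)).mul_const (g z)
    simpa using this
  have h5 := h4.comp_ofReal
  have h6 : (fun t : ℝ => g (z + t • (u • z))) =ᶠ[𝓝 0]
      fun t : ℝ => (1 + (t : ℂ) * u) ^ a * (1 + (t : ℂ) * conj u) ^ b * g z := by
    have hc : Continuous fun t : ℝ => 1 + (t : ℂ) * u := by fun_prop
    have hne : ∀ᶠ t : ℝ in 𝓝 0, 1 + (t : ℂ) * u ≠ 0 :=
      hc.continuousAt.eventually_ne (by simp)
    filter_upwards [hne] with t ht
    have e : z + t • (u • z) = (1 + (t : ℂ) * u) • z := by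
      rw [add_smul, one_smul, mul_smul, Complex.coe_smul]
    rw [e, hg _ ht z hz]
    simp
  exact h2.unique (h5.congr_of_eventuallyEq h6)

theorem euler {U : Set (E N)} {a b : ℤ} {g : E N → ℂ} (hg : Hom U a b g) {z : E N}
    (hz : z ∈ U) (hd : DifferentiableAt ℝ g z) :
    ∑ j, z j * dz j g z = a * g z ∧ ∑ j, conj (z j) * dzb j g z = b * g z := by
  have h1 := euler_dir hg hz hd 1
  have h2 := euler_dir hg hz hd I
  rw [fderiv_eq] at h1 h2
  simp only [one_smul, map_one, mul_one, Finset.sum_add_distrib] at h1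
  have e : ∑ j, ((I • z) j * dz j g z + conj ((I • z) j) * dzb j g z) =
      I * ∑ j, z j * dz j g z - I * ∑ j, conj (z j) * dzb j g z := by
    rw [Finset.mul_sum, Finset.mul_sum, ← Finset.sum_sub_distrib]
    refine Finset.sum_congr rfl fun j _ => ?_
    simp only [PiLp.smul_apply, smul_eq_mul, map_mul, conj_I]
    ring
  rw [e, conj_I] at h2
  have h3 : ∑ j, z j * dz j g z - ∑ j, conj (z j) * dzb j g z = (a - b) * g z := by
    apply mul_left_cancel₀ I_ne_zero
    linear_combination h2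
  constructor
  · linear_combination (h1 + h3) / 2
  · linear_combination (h1 - h3) / 2

theorem fderiv_cx {r : E N → ℝ} {z : E N} (hr : DifferentiableAt ℝ r z) (v : E N) :
    fderiv ℝ (cx r) z v = (fderiv ℝ r z v : ℝ) :=
  congrArg (fun A : E N →L[ℝ] ℂ => A v) (ofRealCLM.hasFDerivAt.comp z hr.hasFDerivAt).fderiv

theorem fderiv_real {r : E N → ℝ} {z : E N} (hr : DifferentiableAt ℝ r z) (v : E N) :
    fderiv ℝ r z v = 2 * (av r z v).re := by
  have h1 := fderiv_cx hr v
  rw [fderiv_eq] at h1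
  have h2 : ∑ j, (v j * dz j (cx r) z + conj (v j) * dzb j (cx r) z) =
      av r z v + conj (av r z v) := by
    simp only [av, map_sum, map_mul, ← Finset.sum_add_distrib, dzb_cx]
    exact Finset.sum_congr rfl fun j _ => by ring
  rw [h2, Complex.add_conj] at h1
  exact_mod_cast h1.symm

theorem hess_conj {φ : E N → ℝ} {z : E N} (h : ContDiffAt ℝ ∞ φ z) (j k : Fin N) :
    conj (dz j (dzb k (cx φ)) z) = dz k (dzb j (cx φ)) z := by
  rw [← dzb_conj, dz_dzb_comm k j (contDiffAt_cx h)]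
  congr 1
  funext w
  rw [dzb_cx, conj_conj]

end Homog

end

end Pool.Agent.MP_fcd29e_an.H1
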